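import Pool.Agent.Helper62.PM.St2

/-!
# Project PM, module XF: approximate identities of zonal polynomials
-/

set_option autoImplicit false

open MeasureTheory Metric Set Filter Topology Polynomial
open scoped RealInnerProductSpace ContDiff

namespace Pool.Agent.Helper88.PM

open Pool.Agent.Helper62.PM
open Pool.Agent.Helper62.Mink

private lemma xf_int {n : ℕ} {g : sphere (0 : E n) 1 → ℝ} (hg : Continuous g) :
    Integrable g (sg n) :=
  hg.integrable_of_hasCompactSupport (HasCompactSupport.of_compactSpace g)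

private lemma xf_inner_le {n : ℕ} {u : E n} (hu : ‖u‖ = 1) (w : sphere (0 : E n) 1) :
    (inner ℝ u (w : E n) : ℝ) ≤ 1 ∧ -1 ≤ (inner ℝ u (w : E n) : ℝ) := by
  have hw : ‖(w : E n)‖ = 1 := by simp
  have h := abs_real_inner_le_norm u (w : E n)
  rw [hu, hw, one_mul, abs_le] at h
  exact ⟨h.2, h.1⟩

private lemma xf_norm_sq {n : ℕ} {u : E n} (hu : ‖u‖ = 1) (w : sphere (0 : E n) 1) :
    ‖(w : E n) - u‖ ^ 2 = 4 * (1 - (1 + (inner ℝ u (w : E n) : ℝ)) / 2) := by
  have hw : ‖(w : E n)‖ = 1 := by simp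
  rw [norm_sub_sq_real, hw, hu, real_inner_comm]
  ring

/-- the key estimate at one unit vector -/
private lemma xf_key {n : ℕ} {u : E n} (hu : ‖u‖ = 1) {ε : ℝ} (hε : 0 < ε) :
    ∃ k : ℕ, 0 < ∫ w : sphere (0 : E n) 1, ((1 + (inner ℝ u (w : E n) : ℝ)) / 2) ^ k ∂(sg n) ∧
      ∫ w : sphere (0 : E n) 1,
        ‖(w : E n) - u‖ * ((1 + (inner ℝ u (w : E n) : ℝ)) / 2) ^ k ∂(sg n) ≤
      ε * ∫ w : sphere (0 : E n) 1, ((1 + (inner ℝ u (w : E n) : ℝ)) / 2) ^ k ∂(sg n) := by
  obtain ⟨η, hη0, hη1, hηε⟩ : ∃ η : ℝ, 0 < η ∧ η ≤ 1 ∧ 2 * η ≤ ε :=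
    ⟨min (ε / 2) 1, by positivity, min_le_right _ _, by
      have := min_le_left (ε / 2) 1
      linarith⟩
  obtain ⟨q, hq⟩ : ∃ q : sphere (0 : E n) 1 → ℝ,
      ∀ w, q w = (1 + (inner ℝ u (w : E n) : ℝ)) / 2 := ⟨_, fun _ => rfl⟩
  obtain ⟨f, hf⟩ : ∃ f : sphere (0 : E n) 1 → ℝ, ∀ w, f w = ‖(w : E n) - u‖ := ⟨_, fun _ => rfl⟩
  have hqc : Continuous q := by
    have : q = fun w : sphere (0 : E n) 1 => (1 + (inner ℝ u (w : E n) : ℝ)) / 2 := funext hq
    rw [this]
    fun_prop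
  have hfc : Continuous f := by
    have : f = fun w : sphere (0 : E n) 1 => ‖(w : E n) - u‖ := funext hf
    rw [this]
    fun_prop
  have hq0 : ∀ w, 0 ≤ q w := fun w => by
    rw [hq]
    have := (xf_inner_le hu w).2
    linarith
  have hq1 : ∀ w, q w ≤ 1 := fun w => by
    rw [hq]
    have := (xf_inner_le hu w).1
    linarith
  have hf0 : ∀ w, 0 ≤ f w := fun w => by rw [hf]; exact norm_nonneg _
  have hfq : ∀ w, f w ^ 2 = 4 * (1 - q w) := fun w => by rw [hf, hq]; exact xf_norm_sq hu w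
  simp_rw [← hq, ← hf]
  obtain ⟨a, ha⟩ : ∃ a : ℝ, a = 1 - η ^ 2 / 4 := ⟨_, rfl⟩
  obtain ⟨b, hb⟩ : ∃ b : ℝ, b = 1 - η ^ 2 / 16 := ⟨_, rfl⟩
  have hη2 : 0 < η ^ 2 := by positivity
  have hη3 : η ^ 2 ≤ 1 := by nlinarith
  have ha0 : 0 ≤ a := by rw [ha]; linarith
  have hb0 : 0 < b := by rw [hb]; linarith
  have hab : a < b := by rw [ha, hb]; linarith
  -- the cap
  obtain ⟨cap, hcap⟩ : ∃ cap : Set (sphere (0 : E n) 1), cap = {w | f w < η / 2} := ⟨_, rfl⟩
  have hcapo : IsOpen cap := by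
    rw [hcap]
    exact isOpen_lt hfc continuous_const
  have hcapm : MeasurableSet cap := hcapo.measurableSet
  have hcapne : cap.Nonempty := by
    refine ⟨⟨u, by simp [hu]⟩, ?_⟩
    rw [hcap]
    show f _ < η / 2
    rw [hf]
    simp only [sub_self, norm_zero]
    positivity
  have hm : 0 < (sg n).real cap := by
    rw [measureReal_def]
    exact ENNReal.toReal_pos (hcapo.measure_pos _ hcapne).ne' (measure_ne_top _ _)
  obtain ⟨m, hmd⟩ : ∃ m : ℝ, m = (sg n).real cap := ⟨_, rfl⟩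
  obtain ⟨s, hsd⟩ : ∃ s : ℝ, s = (sg n).real univ := ⟨_, rfl⟩
  rw [← hmd] at hm
  have hs0 : 0 ≤ s := by rw [hsd]; exact measureReal_nonneg
  -- choice of `k`
  have hr0 : 0 ≤ a / b := div_nonneg ha0 hb0.le
  have hr1 : a / b < 1 := (div_lt_one hb0).2 hab
  obtain ⟨k, hk⟩ := exists_pow_lt_of_lt_one (show (0 : ℝ) < η * m / (2 * s + 1) by positivity) hr1
  have hk2 : 2 * a ^ k * s ≤ η * b ^ k * m := by
    rw [div_pow, lt_div_iff₀ (by positivity), div_mul_eq_mul_div, div_lt_iff₀ (by positivity)] at hk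
    have : 0 ≤ a ^ k := by positivity
    nlinarith
  have hI1 : b ^ k * m ≤ ∫ w, q w ^ k ∂(sg n) := by
    have e1 : ∫ w, cap.indicator (fun _ => b ^ k) w ∂(sg n) = b ^ k * m := by
      rw [integral_indicator_const _ hcapm, smul_eq_mul, hmd]
      ring
    rw [← e1]
    apply integral_mono
    · exact (integrable_const _).indicator hcapm
    · exact xf_int (hqc.pow k)
    · intro w
      by_cases hw : w ∈ cap
      · simp only [indicator_of_mem hw]
        apply pow_le_pow_left₀ hb0.le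
        rw [hcap] at hw
        have h1 : f w < η / 2 := hw
        have h2 := hfq w
        have h3 := hf0 w
        rw [hb]
        nlinarith
      · simp only [indicator_of_notMem hw]
        exact pow_nonneg (hq0 w) k
  have hI2 : ∫ w, f w * q w ^ k ∂(sg n) ≤ η * ∫ w, q w ^ k ∂(sg n) + 2 * a ^ k * s := by
    have e1 : ∫ w, (η * q w ^ k + 2 * a ^ k) ∂(sg n) =
        η * ∫ w, q w ^ k ∂(sg n) + 2 * a ^ k * s := by
      have h1 : Integrable (fun w => η * q w ^ k) (sg n) :=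
        xf_int (continuous_const.mul (hqc.pow k))
      have h2 : Integrable (fun _ : sphere (0 : E n) 1 => 2 * a ^ k) (sg n) := integrable_const _
      rw [integral_add h1 h2, integral_const_mul, integral_const, smul_eq_mul, hsd]
      ring
    rw [← e1]
    apply integral_mono
    · exact xf_int (hfc.mul (hqc.pow k))
    · exact xf_int ((continuous_const.mul (hqc.pow k)).add continuous_const)
    · intro w
      have h2 := hfq w
      have h3 := hf0 w
      have h4 : 0 ≤ q w ^ k := pow_nonneg (hq0 w) k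
      have h5 : 0 ≤ a ^ k := by positivity
      show f w * q w ^ k ≤ η * q w ^ k + 2 * a ^ k
      by_cases hw : f w ≤ η
      · nlinarith
      · push Not at hw
        have h6 : q w ≤ a := by
          rw [ha]
          nlinarith
        have h7 : q w ^ k ≤ a ^ k := pow_le_pow_left₀ (hq0 w) h6 k
        have h8 : f w ≤ 2 := by
          have := hq0 w
          nlinarith
        have h9 : f w * q w ^ k ≤ 2 * a ^ k := mul_le_mul h8 h7 h4 (by norm_num)
        have h10 : 0 ≤ η * q w ^ k := by positivity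
        linarith
  refine ⟨k, lt_of_lt_of_le (by positivity) hI1, ?_⟩
  have hI0 : 0 < ∫ w, q w ^ k ∂(sg n) := lt_of_lt_of_le (by positivity) hI1
  nlinarith [mul_le_mul_of_nonneg_left hI1 hη0.le, mul_le_mul_of_nonneg_right hηε hI0.le]

theorem hXF : StXF := by
  intro n hn ε hε
  obtain ⟨u0, hu0⟩ : ∃ u : E n, ‖u‖ = 1 :=
    ⟨EuclideanSpace.single ⟨0, by omega⟩ (1 : ℝ), by simp⟩
  obtain ⟨k, hk0, hk⟩ := xf_key hu0 hε
  obtain ⟨I, hI⟩ : ∃ I : ℝ, I = ∫ w : sphere (0 : E n) 1,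
      ((1 + (inner ℝ u0 (w : E n) : ℝ)) / 2) ^ k ∂(sg n) := ⟨_, rfl⟩
  rw [← hI] at hk0 hk
  have hrot : ∀ u : E n, ‖u‖ = 1 → (∫ w : sphere (0 : E n) 1,
      ((1 + (inner ℝ u (w : E n) : ℝ)) / 2) ^ k ∂(sg n) = I) ∧
      ∫ w : sphere (0 : E n) 1,
        ‖(w : E n) - u‖ * ((1 + (inner ℝ u (w : E n) : ℝ)) / 2) ^ k ∂(sg n) ≤ ε * I := by
    intro u hu
    obtain ⟨θ, -, hθ⟩ := exists_rot hn hu0 hu
    have e1 := sphere_integral_comp θ (fun w : E n => ((1 + (inner ℝ u w : ℝ)) / 2) ^ k)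
    have e2 := sphere_integral_comp θ
      (fun w : E n => ‖w - u‖ * ((1 + (inner ℝ u w : ℝ)) / 2) ^ k)
    rw [← hθ] at e1 e2
    simp only [LinearIsometryEquiv.inner_map_map, ← map_sub, LinearIsometryEquiv.norm_map] at e1 e2
    rw [hθ] at e1 e2
    constructor
    · rw [hI]
      exact e1.symm
    · rw [← e2]
      exact hk
  refine ⟨Polynomial.C (1 / I) * (Polynomial.C (1 / 2) * (1 + Polynomial.X)) ^ k, ?_, ?_⟩
  · intro t ht
    have h1 : 0 ≤ 1 + t := by linarith [ht.1]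
    simp only [eval_mul, eval_C, eval_pow, eval_add, eval_one, eval_X]
    positivity
  · intro u hu
    obtain ⟨h1, h2⟩ := hrot u hu
    have hev : ∀ t : ℝ, (Polynomial.C (1 / I) * (Polynomial.C (1 / 2) * (1 + Polynomial.X)) ^ k).eval t
        = 1 / I * ((1 + t) / 2) ^ k := by
      intro t
      simp only [eval_mul, eval_C, eval_pow, eval_add, eval_one, eval_X]
      congr 2
      ring
    simp_rw [hev]
    constructor
    · rw [integral_const_mul, h1]
      field_simp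
    · have e3 : ∀ w : sphere (0 : E n) 1,
          ‖(w : E n) - u‖ * (1 / I * ((1 + (inner ℝ u (w : E n) : ℝ)) / 2) ^ k) =
          1 / I * (‖(w : E n) - u‖ * ((1 + (inner ℝ u (w : E n) : ℝ)) / 2) ^ k) := fun w => by ring
      simp_rw [e3]
      rw [integral_const_mul, one_div, inv_mul_le_iff₀ hk0]
      linarith

end Pool.Agent.Helper88.PM
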